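import Pool.Agent.Helper93.TH3.StD

/-!
# Project TH3, module Lif: lifting symbols modulo 3 to integral symbols
-/

set_option autoImplicit false

namespace Pool.Agent.Helper61.TH3

open Pool.Agent.Helper14.CV (Homog EqC act Tl)
open Pool.Agent.Helper93.TH3 Pool.Agent.Helper93.TLH

/-- the reduction modulo three -/
private def red (G : ℤ → ℤ → ℤ) : ℤ → ℤ → ZMod 3 := fun p q => ((G p q : ℤ) : ZMod 3)

private theorem red_Sym {r s : ℕ} {G : ℤ → ℤ → ℤ} (h : SymH 3 r s G) : SymH 3 r s (red G) := by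
  refine ⟨?_, ?_⟩
  · intro k p q hk hpq
    change ((G (k * p) (k * q) : ℤ) : ZMod 3) = ((G p q : ℤ) : ZMod 3)
    rw [h.1 k p q hk hpq]
  · intro a b c d hdet hb hc
    obtain ⟨e, he⟩ := h.2 a b c d hdet hb hc
    refine ⟨(e : ZMod 3), ?_⟩
    intro p q hpq
    have h1 := he p q hpq
    have h2 : G (a * p + b * q) (c * p + d * q) = G p q + e := h1
    change ((G (a * p + b * q) (c * p + d * q) : ℤ) : ZMod 3) = ((G p q : ℤ) : ZMod 3) + e
    rw [h2, Int.cast_add]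

private theorem red_Tl (l : ℕ) (m : ℤ) (G : ℤ → ℤ → ℤ) : Tl l m (red G) = red (Tl l m G) := by
  funext p q
  change red G (l * p) q + ∑ j ∈ Finset.range l, red G (p + m * j * q) (l * q)
    = ((G (l * p) q + ∑ j ∈ Finset.range l, G (p + m * j * q) (l * q) : ℤ) : ZMod 3)
  rw [Int.cast_add, Int.cast_sum]
  rfl

private theorem red_UoT (m : ℤ) (G : ℤ → ℤ → ℤ) : UoT m (red G) = red (UoT m G) := by
  unfold UoT
  rw [red_Tl]
  funext p q
  simp only [Pi.add_apply, red, Int.cast_add]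

private theorem red_VoT (m : ℤ) (G : ℤ → ℤ → ℤ) : VoT m (red G) = red (VoT m G) := by
  unfold VoT
  rw [red_Tl, red_Tl, red_Tl, red_Tl, red_Tl]
  funext p q
  simp only [Pi.sub_apply, Pi.add_apply, red, Int.cast_sub, Int.cast_add]

private theorem red_PoT (m : ℤ) (c : ℕ) (G : ℤ → ℤ → ℤ) : PoT m c (red G) = red (PoT m c G) := by
  unfold PoT
  split_ifs
  · rw [red_Tl]
    funext p q
    simp only [Pi.add_apply, red, Int.cast_add]
  · rw [red_Tl]
  · rfl

private theorem red_iter (U : (ℤ → ℤ → ZMod 3) → (ℤ → ℤ → ZMod 3))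
    (V : (ℤ → ℤ → ℤ) → (ℤ → ℤ → ℤ)) (h : ∀ G, U (red G) = red (V G)) (i : ℕ) (G : ℤ → ℤ → ℤ) :
    U^[i] (red G) = red (V^[i] G) := by
  induction i generalizing G with
  | zero => rfl
  | succ i ih =>
    rw [Function.iterate_succ_apply, Function.iterate_succ_apply, h, ih]

private theorem red_ev (m : ℤ) (G : ℤ → ℤ → ℤ) (c i j : ℕ) :
    evT m (red G) c i j = ((evT m G c i j : ℤ) : ZMod 3) := by
  unfold evT
  rw [red_PoT, red_iter (VoT m) (VoT m) (red_VoT m), red_iter (UoT m) (UoT m) (red_UoT m),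
    Int.cast_sub]
  rfl

private theorem red_pf {q q' : ℕ} (G : ℤ → ℤ → ℤ) (i : Fin 5) (x : ZMod q) (y : ZMod q') :
    pfT (red G) i x y = ((pfT G i x y : ℤ) : ZMod 3) := by
  unfold pfT edgeT
  rw [Int.cast_sub]
  rfl

private theorem sub_pf {q q' : ℕ} (G H : ℤ → ℤ → ZMod 3) (i : Fin 5) (x : ZMod q) (y : ZMod q') :
    pfT (G + -H) i x y = pfT G i x y - pfT H i x y := by
  unfold pfT edgeT
  simp only [Pi.add_apply, Pi.neg_apply]
  abel

/-! `evT` depends only on the class up to constants -/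

private theorem eqC_Tl {G H : ℤ → ℤ → ZMod 3} (l : ℕ) (hl : l ≠ 0) (m : ℤ) (h : EqC G H) :
    EqC (Tl l m G) (Tl l m H) := by
  obtain ⟨c, hc⟩ := h
  refine ⟨c + (l : ZMod 3) * c, fun p q hpq => ?_⟩
  have hl' : (l : ℤ) ≠ 0 := by exact_mod_cast hl
  simp only [Tl]
  rw [hc (l * p) q (by
    rcases hpq with h0 | h0
    · exact Or.inl (mul_ne_zero hl' h0)
    · exact Or.inr h0)]
  have hs : ∑ j ∈ Finset.range l, G (p + m * j * q) (l * q) =
      ∑ j ∈ Finset.range l, (H (p + m * j * q) (l * q) + c) := by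
    refine Finset.sum_congr rfl fun j _ => hc _ _ ?_
    by_cases hq : q = 0
    · left
      rcases hpq with h0 | h0
      · rw [hq, mul_zero, add_zero]; exact h0
      · exact absurd hq h0
    · right
      exact mul_ne_zero hl' hq
  rw [hs, Finset.sum_add_distrib, Finset.sum_const, Finset.card_range, nsmul_eq_mul]
  ring

private theorem eqC_add {G H G' H' : ℤ → ℤ → ZMod 3} (h : EqC G H) (h' : EqC G' H') :
    EqC (G + G') (H + H') := by
  obtain ⟨c, hc⟩ := h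
  obtain ⟨c', hc'⟩ := h'
  refine ⟨c + c', fun p q hpq => ?_⟩
  simp only [Pi.add_apply]
  rw [hc p q hpq, hc' p q hpq]
  ring

private theorem eqC_sub {G H G' H' : ℤ → ℤ → ZMod 3} (h : EqC G H) (h' : EqC G' H') :
    EqC (G - G') (H - H') := by
  obtain ⟨c, hc⟩ := h
  obtain ⟨c', hc'⟩ := h'
  refine ⟨c - c', fun p q hpq => ?_⟩
  simp only [Pi.sub_apply]
  rw [hc p q hpq, hc' p q hpq]
  ring

private theorem n5 : (5 : ℕ) ≠ 0 := by norm_num
private theorem n7 : (7 : ℕ) ≠ 0 := by norm_num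
private theorem n13 : (13 : ℕ) ≠ 0 := by norm_num
private theorem n31 : (31 : ℕ) ≠ 0 := by norm_num

private theorem eqC_Uo {G H : ℤ → ℤ → ZMod 3} (m : ℤ) (h : EqC G H) : EqC (UoT m G) (UoT m H) :=
  eqC_add (eqC_Tl 13 n13 m h) h

private theorem eqC_Vo {G H : ℤ → ℤ → ZMod 3} (m : ℤ) (h : EqC G H) : EqC (VoT m G) (VoT m H) :=
  eqC_sub (eqC_sub (eqC_sub (eqC_add (eqC_Tl 31 n31 m h)
    (eqC_Tl 5 n5 m (eqC_Tl 5 n5 m h))) (eqC_Tl 7 n7 m h)) (eqC_Tl 13 n13 m h)) h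

private theorem eqC_Po {G H : ℤ → ℤ → ZMod 3} (m : ℤ) (c : ℕ) (h : EqC G H) :
    EqC (PoT m c G) (PoT m c H) := by
  unfold PoT
  split_ifs
  · exact eqC_add (eqC_Tl 7 n7 m h) h
  · exact eqC_Tl 5 n5 m h
  · exact h

private theorem eqC_iter (U : (ℤ → ℤ → ZMod 3) → (ℤ → ℤ → ZMod 3))
    (hU : ∀ G H, EqC G H → EqC (U G) (U H)) (i : ℕ) {G H : ℤ → ℤ → ZMod 3} (h : EqC G H) :
    EqC (U^[i] G) (U^[i] H) := by
  induction i generalizing G H with
  | zero => exact h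
  | succ i ih =>
    rw [Function.iterate_succ_apply, Function.iterate_succ_apply]
    exact ih (hU G H h)

private theorem evT_congr (m : ℤ) {G H : ℤ → ℤ → ZMod 3} (h : EqC G H) (c i j : ℕ) :
    evT m G c i j = evT m H c i j := by
  obtain ⟨e, he⟩ := eqC_iter (UoT m) (fun _ _ => eqC_Uo m) i
    (eqC_iter (VoT m) (fun _ _ => eqC_Vo m) j (eqC_Po m c h))
  unfold evT
  rw [he 1 0 (Or.inl one_ne_zero), he 0 1 (Or.inr one_ne_zero)]
  ring

/-- MODULE Lif. -/
theorem hLif (hr : TRel) (hp : TLifp) (hx : TEx) (hu : TUni) : TLif := by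
  intro r s g hg
  have h1 := hr (ZMod 3) _ r s g hg
  obtain ⟨F, hF, hF1⟩ := hp r s _ h1
  obtain ⟨G, hG, hG1⟩ := hx ℤ _ r s F hF
  refine ⟨G, hG, ?_⟩
  have h2 : SymH 3 (r + 1) (s + 1) (red G + -g) := SymH.add (red_Sym hG) (SymH.neg hg)
  have h3 : EqC (red G + -g) 0 := by
    refine hu (ZMod 3) _ r s _ h2 fun i => ?_
    funext x y
    rw [sub_pf, red_pf, hG1, hF1, sub_self]
    rfl
  have h4 : EqC (red G) g := by
    obtain ⟨c, hc⟩ := h3
    refine ⟨c, fun p q hpq => ?_⟩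
    have h5 := hc p q hpq
    simp only [Pi.add_apply, Pi.neg_apply, Pi.zero_apply, zero_add] at h5
    rw [← h5]
    abel
  intro c i j
  rw [← red_ev]
  exact evT_congr _ h4 c i j

end Pool.Agent.Helper61.TH3
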